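import Pool.Agent.Helper80.EC_D.Goals
import Pool.Agent.Helper86.EC_F.SUMT

/-! Packet SGI of MP_ecc237 Part D (helper80). -/

set_option autoImplicit false

open MeasureTheory Filter Topology Set

namespace EC237.PD.PkSGI

open EC237.PF

theorem abs_c3 (p : ℕ × ℕ) : |c3 p| ≤ 2 := by
  unfold c3
  split_ifs
  · norm_num
  · norm_num

theorem QQ_eq (t : ℝ) (p : ℕ × ℕ) :
    QQ t p = Real.exp (-(Real.pi * ((p.1:ℝ) + 1) * ((p.2:ℝ) + 1)) * t) := by
  unfold QQ
  congr 1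
  ring

theorem rate_pos (p : ℕ × ℕ) : 0 < Real.pi * ((p.1:ℝ) + 1) * ((p.2:ℝ) + 1) := by positivity

theorem integrable_QQ (y : ℝ) (p : ℕ × ℕ) : IntegrableOn (fun t => QQ t p) (Ioi y) := by
  simp_rw [QQ_eq]
  exact integrableOn_exp_mul_Ioi (by linarith [rate_pos p]) y

theorem integral_QQ (y : ℝ) (p : ℕ × ℕ) :
    ∫ t in Ioi y, QQ t p = QQ y p / (Real.pi * ((p.1:ℝ) + 1) * ((p.2:ℝ) + 1)) := by
  simp_rw [QQ_eq]
  rw [integral_exp_mul_Ioi (by linarith [rate_pos p]) y]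
  rw [neg_div_neg_eq]

theorem QQ_pos (t : ℝ) (p : ℕ × ℕ) : 0 < QQ t p := by
  unfold QQ
  exact Real.exp_pos _

theorem summable_main (y : ℝ) (hy : 0 < y) :
    Summable (fun p : ℕ × ℕ => 2 * QQ y p / ((p.1:ℝ) + 1)) := by
  refine PkSUMT.summable_of_bound _ 2 (Real.pi * y) (by positivity) ?_
  intro p
  obtain ⟨hM, hN⟩ := PkSUMT.one_le_X p
  unfold QQ
  set M : ℝ := (p.1:ℝ) + 1 with hMd
  set N : ℝ := (p.2:ℝ) + 1 with hNd
  have e1 : -(Real.pi * M * N * y) = -(Real.pi * y * (M * N)) := by ring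
  rw [e1, abs_of_pos (by positivity)]
  have hMN : 1 ≤ M * N := by nlinarith
  have h1 : 1 ≤ (M * N) ^ 6 := one_le_pow₀ hMN
  rw [mul_div_assoc]
  refine mul_le_mul_of_nonneg_left ?_ (by norm_num)
  refine (div_le_self (Real.exp_pos _).le hM).trans ?_
  exact le_mul_of_one_le_left (Real.exp_pos _).le h1

theorem summable_c3 (y : ℝ) (hy : 0 < y) :
    Summable (fun p : ℕ × ℕ => c3 p * sgn2 p * QQ y p / ((p.1:ℝ) + 1)) := by
  refine Summable.of_norm_bounded (summable_main y hy) ?_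
  intro p
  have hQ := QQ_pos y p
  have hM : (0:ℝ) < (p.1:ℝ) + 1 := by positivity
  rw [Real.norm_eq_abs, abs_div, abs_mul, abs_mul, PkSUMT.abs_sgn2, mul_one,
    abs_of_pos hQ, abs_of_pos hM]
  exact div_le_div_of_nonneg_right (mul_le_mul_of_nonneg_right (abs_c3 p) hQ.le) hM.le

theorem thm : EC237.PD.G_SGI := by
  intro y hy
  refine ⟨summable_c3 y hy, ?_⟩
  have hI : ∀ p : ℕ × ℕ, ∫ t in Ioi y, c3 p * sgn2 p * ((p.2:ℝ) + 1) * QQ t p =
      c3 p * sgn2 p * QQ y p / ((p.1:ℝ) + 1) * Real.pi⁻¹ := by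
    intro p
    rw [integral_const_mul, integral_QQ]
    have hM : (p.1:ℝ) + 1 ≠ 0 := by positivity
    have hN : (p.2:ℝ) + 1 ≠ 0 := by positivity
    have hpi := Real.pi_ne_zero
    field_simp
  have hint : ∀ p : ℕ × ℕ, Integrable (fun t => c3 p * sgn2 p * ((p.2:ℝ) + 1) * QQ t p)
      (volume.restrict (Ioi y)) := by
    intro p
    exact (integrable_QQ y p).const_mul _
  have hnorm : ∀ p : ℕ × ℕ, ∫ t in Ioi y, ‖c3 p * sgn2 p * ((p.2:ℝ) + 1) * QQ t p‖ =
      |c3 p| * (QQ y p / ((p.1:ℝ) + 1)) * Real.pi⁻¹ := by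
    intro p
    have h1 : ∀ t : ℝ, ‖c3 p * sgn2 p * ((p.2:ℝ) + 1) * QQ t p‖ =
        |c3 p| * ((p.2:ℝ) + 1) * QQ t p := by
      intro t
      have hN : (0:ℝ) < (p.2:ℝ) + 1 := by positivity
      rw [Real.norm_eq_abs, abs_mul, abs_mul, abs_mul, PkSUMT.abs_sgn2, mul_one,
        abs_of_pos (QQ_pos t p), abs_of_pos hN]
    simp_rw [h1]
    rw [integral_const_mul, integral_QQ]
    have hM : (p.1:ℝ) + 1 ≠ 0 := by positivity
    have hN : (p.2:ℝ) + 1 ≠ 0 := by positivity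
    have hpi := Real.pi_ne_zero
    field_simp
  have hsum : Summable (fun p : ℕ × ℕ =>
      ∫ t in Ioi y, ‖c3 p * sgn2 p * ((p.2:ℝ) + 1) * QQ t p‖) := by
    refine Summable.of_nonneg_of_le (fun p => integral_nonneg (fun t => norm_nonneg _)) ?_
      ((summable_main y hy).mul_right Real.pi⁻¹)
    intro p
    rw [hnorm p]
    refine mul_le_mul_of_nonneg_right ?_ (by positivity)
    rw [mul_div_assoc]
    exact mul_le_mul_of_nonneg_right (abs_c3 p) (div_nonneg (QQ_pos y p).le (by positivity))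
  have hs := hasSum_integral_of_summable_integral_norm hint hsum
  have h2 := hs.tsum_eq
  unfold sgp0
  rw [integral_neg, integral_const_mul, ← h2]
  simp_rw [hI]
  rw [tsum_mul_right]
  have hpi := Real.pi_ne_zero
  field_simp

end EC237.PD.PkSGI
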